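import Mathlib

/-!
# A second moment inequality for finitely many events (for the brick ALGS)
-/

set_option autoImplicit false

namespace Pool.Agent.K3h20.HP

open Finset

open Classical in
/-- second moment: the number of the `c` for which no `t a c` holds -/
theorem second_moment {Ω A : Type} [Fintype Ω] (S : Finset A) (t z : A → Ω → Prop)
    (htz : ∀ a c, t a c → z a c) (W q p : ℝ) (hW : W = (Fintype.card Ω : ℝ)) (hq : 0 < q)
    (hp : 0 < p) (hS : 0 < S.card)
    (h1 : ∀ a ∈ S, (1 - 1 / p) * W ≤ q * ((univ.filter fun c => t a c).card : ℝ))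
    (h2 : ∀ a ∈ S, q * ((univ.filter fun c => z a c).card : ℝ) = W)
    (h3 : ∀ a ∈ S, ∀ b ∈ S, a ≠ b →
      q ^ 2 * ((univ.filter fun c => z a c ∧ z b c).card : ℝ) = W) :
    ((univ.filter fun c => ∀ a ∈ S, ¬ t a c).card : ℝ) ≤ (q / S.card + 2 / p) * W := by
  have hm0 : (0 : ℝ) < S.card := by exact_mod_cast hS
  have hW0 : 0 ≤ W := by rw [hW]; positivity
  -- indicator functions
  obtain ⟨f, hf⟩ : ∃ f : A → Ω → ℝ, f = fun a c => if t a c then 1 else 0 := ⟨_, rfl⟩
  obtain ⟨g, hg⟩ : ∃ g : A → Ω → ℝ, g = fun a c => if z a c then 1 else 0 := ⟨_, rfl⟩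
  have hf0 : ∀ a c, 0 ≤ f a c := fun a c => by rw [hf]; simp only; split_ifs <;> norm_num
  have hg0 : ∀ a c, 0 ≤ g a c := fun a c => by rw [hg]; simp only; split_ifs <;> norm_num
  have hfg : ∀ a c, f a c ≤ g a c := by
    intro a c
    rw [hf, hg]
    simp only
    by_cases h : t a c
    · rw [if_pos h, if_pos (htz a c h)]
    · rw [if_neg h]
      split_ifs <;> norm_num
  have hg1 : ∀ a c, g a c * g a c = g a c := by
    intro a c
    rw [hg]
    simp only
    split_ifs <;> norm_num
  have hsf : ∀ a, ∑ c, f a c = ((univ.filter fun c => t a c).card : ℝ) := by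
    intro a
    rw [hf]
    simp only
    rw [Finset.sum_boole]
  have hsg : ∀ a, ∑ c, g a c = ((univ.filter fun c => z a c).card : ℝ) := by
    intro a
    rw [hg]
    simp only
    rw [Finset.sum_boole]
  have hsgg : ∀ a b, ∑ c, g a c * g b c = ((univ.filter fun c => z a c ∧ z b c).card : ℝ) := by
    intro a b
    rw [← Finset.sum_boole]
    refine Finset.sum_congr rfl fun c _ => ?_
    rw [hg]
    simp only
    by_cases ha : z a c <;> by_cases hb : z b c <;> simp [ha, hb]
  -- the number of the events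
  obtain ⟨X, hX⟩ : ∃ X : Ω → ℝ, X = fun c => ∑ a ∈ S, f a c := ⟨_, rfl⟩
  obtain ⟨μ, hμ⟩ : ∃ μ : ℝ, μ = S.card / q := ⟨_, rfl⟩
  have hμ0 : 0 < μ := by rw [hμ]; positivity
  have hX1 : μ * ((1 - 1 / p) * W) ≤ ∑ c, X c := by
    rw [hX]
    simp only
    rw [Finset.sum_comm]
    have : ∑ a ∈ S, (1 - 1 / p) * W / q ≤ ∑ a ∈ S, ∑ c, f a c := by
      refine Finset.sum_le_sum fun a ha => ?_
      rw [hsf, div_le_iff₀ hq]
      have := h1 a ha
      linarith
    rw [Finset.sum_const, nsmul_eq_mul] at this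
    calc μ * ((1 - 1 / p) * W) = S.card * ((1 - 1 / p) * W / q) := by rw [hμ]; ring
      _ ≤ _ := this
  have hX2 : ∑ c, X c ^ 2 ≤ μ * W + μ ^ 2 * W := by
    have e1 : ∀ c, X c ^ 2 ≤ ∑ a ∈ S, ∑ b ∈ S, g a c * g b c := by
      intro c
      rw [hX]
      simp only
      rw [sq, Finset.sum_mul_sum]
      refine Finset.sum_le_sum fun a _ => Finset.sum_le_sum fun b _ => ?_
      exact mul_le_mul (hfg a c) (hfg b c) (hf0 b c) (hg0 a c)
    calc ∑ c, X c ^ 2 ≤ ∑ c, ∑ a ∈ S, ∑ b ∈ S, g a c * g b c :=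
          Finset.sum_le_sum fun c _ => e1 c
      _ = ∑ a ∈ S, ∑ b ∈ S, ∑ c, g a c * g b c := by
          rw [Finset.sum_comm]
          refine Finset.sum_congr rfl fun a _ => ?_
          rw [Finset.sum_comm]
      _ ≤ ∑ a ∈ S, ∑ b ∈ S, ((if a = b then W / q else 0) + W / q ^ 2) := by
          refine Finset.sum_le_sum fun a ha => Finset.sum_le_sum fun b hb => ?_
          by_cases hab : a = b
          · subst hab
            rw [if_pos rfl]
            have e2 : ∑ c, g a c * g a c = W / q := by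
              rw [Finset.sum_congr rfl fun c _ => hg1 a c, hsg, eq_div_iff hq.ne', mul_comm]
              exact h2 a ha
            rw [e2]
            have : 0 ≤ W / q ^ 2 := by positivity
            linarith
          · rw [if_neg hab, zero_add, hsgg, le_div_iff₀ (by positivity), mul_comm]
            exact (h3 a ha b hb hab).le
      _ = S.card * (W / q) + S.card * (S.card * (W / q ^ 2)) := by
          simp only [Finset.sum_add_distrib, Finset.sum_const, nsmul_eq_mul]
          congr 1
          rw [Finset.sum_congr rfl fun a ha => by rw [Finset.sum_ite_eq S a, if_pos ha],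
            Finset.sum_const, nsmul_eq_mul]
      _ = μ * W + μ ^ 2 * W := by
          rw [hμ]
          ring
  have hvar : ∑ c, (X c - μ) ^ 2 ≤ μ * W + 2 * μ ^ 2 / p * W := by
    have e3 : ∑ c, (X c - μ) ^ 2 = ∑ c, X c ^ 2 - 2 * μ * ∑ c, X c + W * μ ^ 2 := by
      calc ∑ c, (X c - μ) ^ 2 = ∑ c, (X c ^ 2 - 2 * μ * X c + μ ^ 2) :=
            Finset.sum_congr rfl fun c _ => by ring
        _ = _ := by
            rw [Finset.sum_add_distrib, Finset.sum_sub_distrib, ← Finset.mul_sum,
              Finset.sum_const, nsmul_eq_mul, Finset.card_univ, hW]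
    rw [e3]
    have e4 : 2 * μ * (μ * ((1 - 1 / p) * W)) ≤ 2 * μ * ∑ c, X c :=
      mul_le_mul_of_nonneg_left hX1 (by positivity)
    have e5 : 2 * μ * (μ * ((1 - 1 / p) * W)) = 2 * μ ^ 2 * W - 2 * μ ^ 2 / p * W := by ring
    linarith
  have hlow : ((univ.filter fun c => ∀ a ∈ S, ¬ t a c).card : ℝ) * μ ^ 2 ≤
      ∑ c, (X c - μ) ^ 2 := by
    calc ((univ.filter fun c => ∀ a ∈ S, ¬ t a c).card : ℝ) * μ ^ 2 =
          ∑ c ∈ univ.filter (fun c => ∀ a ∈ S, ¬ t a c), μ ^ 2 := by
          rw [Finset.sum_const, nsmul_eq_mul]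
      _ = ∑ c ∈ univ.filter (fun c => ∀ a ∈ S, ¬ t a c), (X c - μ) ^ 2 := by
          refine Finset.sum_congr rfl fun c hc => ?_
          rw [Finset.mem_filter] at hc
          have : X c = 0 := by
            rw [hX]
            refine Finset.sum_eq_zero fun a ha => ?_
            rw [hf]
            exact if_neg (hc.2 a ha)
          rw [this]
          ring
      _ ≤ ∑ c, (X c - μ) ^ 2 :=
          Finset.sum_le_sum_of_subset_of_nonneg (Finset.filter_subset _ _)
            fun _ _ _ => sq_nonneg _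
  have h5 := hlow.trans hvar
  rw [← le_div_iff₀ (by positivity)] at h5
  refine h5.trans (le_of_eq ?_)
  rw [hμ]
  field_simp

open Classical in
theorem ncard_filter {Ω : Type} [Fintype Ω] (P : Ω → Prop) :
    ({c | P c} : Set Ω).ncard = (univ.filter fun c => P c).card := by
  rw [← Set.ncard_coe_finset]
  congr 1
  ext c
  simp

/-- the same with sets -/
theorem second_moment' {Ω A : Type} [Fintype Ω] (S : Finset A) (t z : A → Ω → Prop)
    (htz : ∀ a c, t a c → z a c) (W q p : ℝ) (hW : W = (Fintype.card Ω : ℝ)) (hq : 0 < q)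
    (hp : 0 < p) (hS : 0 < S.card)
    (h1 : ∀ a ∈ S, (1 - 1 / p) * W ≤ q * (({c | t a c} : Set Ω).ncard : ℝ))
    (h2 : ∀ a ∈ S, q * (({c | z a c} : Set Ω).ncard : ℝ) = W)
    (h3 : ∀ a ∈ S, ∀ b ∈ S, a ≠ b →
      q ^ 2 * (({c | z a c ∧ z b c} : Set Ω).ncard : ℝ) = W) :
    (({c | ∀ a ∈ S, ¬ t a c} : Set Ω).ncard : ℝ) ≤ (q / S.card + 2 / p) * W := by
  classical
  have key := second_moment S t z htz W q p hW hq hp hS (fun a ha => by
      have := h1 a ha
      rw [ncard_filter] at this
      convert this) (fun a ha => by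
      have := h2 a ha
      rw [ncard_filter] at this
      convert this) (fun a ha b hb hab => by
      have := h3 a ha b hb hab
      rw [ncard_filter] at this
      convert this)
  rw [ncard_filter]
  convert key

end Pool.Agent.K3h20.HP
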