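import Pool.Agent.K3h34.HP.Stm
import Pool.Agent.K3h20.HP.Moment

/-!
# Brick ALGS: random systems of forms have smooth zeros modulo `p` in large sets
-/

set_option autoImplicit false

namespace Pool.Agent.K3h20.HP

open Finset

open Classical in
/-- representatives of the lines through the points of a set -/
theorem exists_reps {n p : ℕ} [Fact p.Prime] (S : Finset (Fin n → ZMod p)) :
    ∃ S' : Finset (Fin n → ZMod p), S' ⊆ S ∧ (∀ a ∈ S', a ≠ 0) ∧
      (∀ a ∈ S', ∀ b ∈ S', a ≠ b → ∀ k : ZMod p, b ≠ k • a) ∧ S.card ≤ p * S'.card + 1 := by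
  obtain ⟨F, hF⟩ : ∃ F, F = S.filter fun a => a ≠ 0 := ⟨_, rfl⟩
  obtain ⟨g, hg⟩ : ∃ g : (Fin n → ZMod p) → Submodule (ZMod p) (Fin n → ZMod p),
      g = fun a => Submodule.span (ZMod p) {a} := ⟨_, rfl⟩
  obtain ⟨h, hh⟩ : ∃ h : Submodule (ZMod p) (Fin n → ZMod p) → (Fin n → ZMod p),
      ∀ b ∈ F.image g, h b ∈ F ∧ g (h b) = b := by
    refine ⟨fun b => if hb : ∃ a ∈ F, g a = b then hb.choose else 0, fun b hb => ?_⟩
    have hb' : ∃ a ∈ F, g a = b := by simpa using hb
    simp only [dif_pos hb']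
    exact hb'.choose_spec
  refine ⟨(F.image g).image h, ?_, ?_, ?_, ?_⟩
  · intro a ha
    obtain ⟨b, hb, rfl⟩ := Finset.mem_image.1 ha
    have := (hh b hb).1
    rw [hF, Finset.mem_filter] at this
    exact this.1
  · intro a ha
    obtain ⟨b, hb, rfl⟩ := Finset.mem_image.1 ha
    have := (hh b hb).1
    rw [hF, Finset.mem_filter] at this
    exact this.2
  · intro a ha a' ha' hne k hk
    obtain ⟨b, hb, rfl⟩ := Finset.mem_image.1 ha
    obtain ⟨b', hb', rfl⟩ := Finset.mem_image.1 ha'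
    have h0 : h b' ≠ 0 := by
      have := (hh b' hb').1
      rw [hF, Finset.mem_filter] at this
      exact this.2
    have hk0 : k ≠ 0 := by
      rintro rfl
      rw [zero_smul] at hk
      exact h0 hk
    apply hne
    have h1 : g (h b') = g (h b) := by
      rw [hg]
      simp only
      rw [hk]
      exact Submodule.span_singleton_smul_eq (IsUnit.mk0 k hk0) _
    rw [(hh b hb).2, (hh b' hb').2] at h1
    rw [h1]
  · have hinj : ((F.image g).image h).card = (F.image g).card := by
      apply Finset.card_image_of_injOn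
      intro b hb b' hb' he
      have h1 := (hh b hb).2
      have h2 := (hh b' hb').2
      rw [← h1, he, h2]
    rw [hinj]
    have h1 : F.card ≤ p * (F.image g).card := by
      apply Finset.card_le_mul_card_image
      intro b hb
      obtain ⟨a, ha, rfl⟩ := Finset.mem_image.1 hb
      calc (F.filter fun x => g x = g a).card ≤
            ((Finset.univ : Finset (ZMod p)).image fun k => k • a).card := by
            apply Finset.card_le_card
            intro x hx
            rw [Finset.mem_filter] at hx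
            have hx2 : x ∈ g a := by
              rw [← hx.2, hg]
              exact Submodule.mem_span_singleton_self x
            rw [hg] at hx2
            obtain ⟨k, hk⟩ := Submodule.mem_span_singleton.1 hx2
            exact Finset.mem_image.2 ⟨k, Finset.mem_univ _, hk⟩
        _ ≤ (Finset.univ : Finset (ZMod p)).card := Finset.card_image_le
        _ = p := by rw [Finset.card_univ, ZMod.card]
    have h2 : S.card ≤ F.card + 1 := by
      have : S ⊆ insert 0 F := by
        intro a ha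
        rw [Finset.mem_insert]
        by_cases h0 : a = 0
        · exact Or.inl h0
        · right
          rw [hF, Finset.mem_filter]
          exact ⟨ha, h0⟩
      exact (Finset.card_le_card this).trans (Finset.card_insert_le _ _)
    omega

/-- Brick ALGS. -/
theorem t_ALGS : Pool.Agent.K3h34.HP.S_ONE → Pool.Agent.K3h34.HP.S_TWO →
    Pool.Agent.K3h34.HP.S_ALGS := by
  intro hONE hTWO s n e hsn T _ u δ hδ
  classical
  refine ⟨2 + 2 / δ, by positivity, ?_⟩
  intro p hp S hS
  have hpn : 2 ≤ p := hp.out.two_le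
  have hp0 : (0 : ℝ) < p := by positivity
  have hp1 : (1 : ℝ) ≤ p := by exact_mod_cast hp.out.one_lt.le
  obtain ⟨W, hWdef⟩ : ∃ W : ℝ, W = (p : ℝ) ^ Fintype.card (Σ j, T j) := ⟨_, rfl⟩
  have hW : W = (Fintype.card ((Σ j, T j) → ZMod p) : ℝ) := by
    rw [hWdef, Fintype.card_fun, ZMod.card]
    push_cast
    rfl
  have hW0 : 0 ≤ W := by rw [hWdef]; positivity
  rw [← hWdef]
  rcases le_or_gt (p : ℝ) (2 + 2 / δ) with hsmall | hlarge
  · have h1 : (({c : (Σ j, T j) → ZMod p | ¬ ∃ a ∈ S, Pool.Agent.K3h34.HP.TestP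
        (Pool.Agent.K3h34.HP.frm u c) a} : Set _).ncard : ℝ) ≤ W := by
      rw [hW, ← Nat.card_eq_fintype_card]
      exact_mod_cast Set.ncard_le_card _
    refine h1.trans ?_
    have h2 : 1 ≤ (2 + 2 / δ) / p := by rwa [le_div_iff₀ hp0, one_mul]
    nlinarith
  -- large primes
  have hδp : 2 ≤ δ * (p : ℝ) := by
    have : 2 / δ < p := by linarith
    rw [div_lt_iff₀ hδ] at this
    linarith
  have hpow : (p : ℝ) ≤ (p : ℝ) ^ (n + 1) := by
    calc (p : ℝ) = (p : ℝ) ^ 1 := (pow_one _).symm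
      _ ≤ _ := pow_le_pow_right₀ hp1 (by omega)
  obtain ⟨S', hS1, hS2, hS3, hS4⟩ := exists_reps (n := n + 1) (p := p) S.toFinite.toFinset
  have hScard : (S.toFinite.toFinset.card : ℝ) = (S.ncard : ℝ) := by
    rw [Set.ncard_eq_toFinset_card S S.toFinite]
  have hS5 : (S.ncard : ℝ) ≤ p * S'.card + 1 := by
    rw [← hScard]
    exact_mod_cast hS4
  have hS6 : δ / 2 * (p : ℝ) ^ n ≤ S'.card := by
    have h1 : δ * (p : ℝ) ^ (n + 1) ≤ p * S'.card + 1 := hS.trans hS5
    have h2 : 2 ≤ δ * (p : ℝ) ^ (n + 1) := hδp.trans (mul_le_mul_of_nonneg_left hpow hδ.le)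
    have h3 : δ / 2 * (p : ℝ) ^ (n + 1) ≤ p * S'.card := by linarith
    have h4 : p * (δ / 2 * (p : ℝ) ^ n) ≤ p * S'.card := by
      calc p * (δ / 2 * (p : ℝ) ^ n) = δ / 2 * (p : ℝ) ^ (n + 1) := by ring
        _ ≤ _ := h3
    exact le_of_mul_le_mul_left h4 hp0
  have hS'0 : 0 < S'.card := by
    have : (0 : ℝ) < S'.card := lt_of_lt_of_le (by positivity) hS6
    exact_mod_cast this
  have hq : (0 : ℝ) < (p : ℝ) ^ s := by positivity
  have key := second_moment' (Ω := (Σ j, T j) → ZMod p) S'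
    (fun a c => Pool.Agent.K3h34.HP.TestP (Pool.Agent.K3h34.HP.frm u c) a)
    (fun a c => ∀ j, MvPolynomial.eval a (Pool.Agent.K3h34.HP.frm u c j) = 0)
    (fun a c h => h.1) W ((p : ℝ) ^ s) p hW hq hp0 hS'0
    (by
      intro a ha
      have := (hONE s n e hsn T u p a (hS2 a ha)).1
      rw [← hWdef] at this
      exact this)
    (by
      intro a ha
      have := (hONE s n e hsn T u p a (hS2 a ha)).2
      rw [← hWdef] at this
      exact this)
    (by
      intro a ha b hb hab
      have := hTWO s n e T u p a b (hS2 a ha) (hS3 a ha b hb hab)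
      rw [← hWdef] at this
      rw [← pow_mul, mul_comm s 2, ← this]
      congr 3
      ext c
      simp only [Set.mem_ofPred_eq]
      exact ⟨fun h j => ⟨h.1 j, h.2 j⟩, fun h => ⟨fun j => (h j).1, fun j => (h j).2⟩⟩)
  have hsub : (({c : (Σ j, T j) → ZMod p | ¬ ∃ a ∈ S, Pool.Agent.K3h34.HP.TestP
      (Pool.Agent.K3h34.HP.frm u c) a} : Set _).ncard : ℝ) ≤
      (({c : (Σ j, T j) → ZMod p | ∀ a ∈ S', ¬ Pool.Agent.K3h34.HP.TestP
        (Pool.Agent.K3h34.HP.frm u c) a} : Set _).ncard : ℝ) := by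
    refine Nat.cast_le.2 (Set.ncard_le_ncard (fun c hc a ha ht => hc ⟨a, ?_, ht⟩)
      (Set.toFinite _))
    exact (Set.Finite.mem_toFinset _).1 (hS1 ha)
  refine (hsub.trans key).trans ?_
  apply mul_le_mul_of_nonneg_right _ hW0
  have hS7 : (p : ℝ) ^ s / S'.card ≤ 2 / δ / p := by
    rw [div_le_div_iff₀ (by exact_mod_cast hS'0) hp0]
    have h1 : (p : ℝ) ^ s * p ≤ (p : ℝ) ^ n := by
      rw [← pow_succ]
      exact pow_le_pow_right₀ hp1 hsn
    calc (p : ℝ) ^ s * p ≤ (p : ℝ) ^ n := h1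
      _ = 2 / δ * (δ / 2 * (p : ℝ) ^ n) := by field_simp
      _ ≤ 2 / δ * S'.card := mul_le_mul_of_nonneg_left hS6 (by positivity)
  calc (p : ℝ) ^ s / S'.card + 2 / p ≤ 2 / δ / p + 2 / p := by linarith
    _ = (2 + 2 / δ) / p := by ring

end Pool.Agent.K3h20.HP
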